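import Mathlib
import Pool.Agent.H68.L.R_seed8.H398R2.BV4
import Pool.Agent.H68.L.R_seed8.H410R2.Iface

/-! Assembly of the Bombieri-Vinogradov bound. -/

open Finset Filter Topology

namespace Pool.Agent.H398R2.BV

open Pool.Agent.Helper112 Pool.Agent.Helper112.TI Pool.Agent.Helper112.TII
open Pool.Agent.H410R2

open Classical in
/-- the finite set of primitive characters -/
noncomputable def Prim (f : ℕ) : Finset (DirichletCharacter ℂ f) :=
  (univ : Finset (DirichletCharacter ℂ f)).filter (fun ψ => ψ.IsPrimitive)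

theorem prim_ne_one {f : ℕ} (hf : 2 ≤ f) {ψ : DirichletCharacter ℂ f} (hψ : ψ ∈ Prim f) :
    ψ ≠ 1 := by
  classical
  have : NeZero f := ⟨by omega⟩
  rintro rfl
  unfold Prim at hψ
  rw [mem_filter] at hψ
  have h1 := hψ.2
  rw [DirichletCharacter.isPrimitive_def, DirichletCharacter.conductor_one] at h1
  omega

theorem card_prim_le {f : ℕ} (hf : 1 ≤ f) : ((Prim f).card : ℝ) ≤ Nat.totient f := by
  classical
  have : NeZero f := ⟨by omega⟩
  have h1 := DirichletCharacter.card_eq_totient_of_hasEnoughRootsOfUnity ℂ f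
  rw [← h1, Nat.card_eq_fintype_card]
  exact_mod_cast (card_filter_le _ _)

theorem norm_psiLog_le (X : ℝ) (hX : 1 ≤ X) (U V f : ℕ) (hU : 1 ≤ U) (hV : 1 ≤ V) (hf : 2 ≤ f)
    (ψ : DirichletCharacter ℂ f) (hψ : ψ ≠ 1) :
    ‖psiLog X f ψ‖ ≤ 8 * U * V * f * Real.log X ^ 2 + ‖TL X f ψ (LamII U V)‖ := by
  have h1 := typeI X hX U V f hU hV hf ψ hψ
  have h2 : psiLog X f ψ =
      TL X f ψ (fun n => ArithmeticFunction.vonMangoldt n - LamII U V n) +
        TL X f ψ (LamII U V) := by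
    rw [← TL_add]
    unfold psiLog TL
    apply sum_congr rfl
    intro n _
    congr 2
    push_cast
    ring
  rw [h2]
  exact (norm_add_le _ _).trans (add_le_add_left h1 _)

/-- the sum in question for one modulus -/
noncomputable def Sf (c X : ℝ) (f : ℕ) : ℝ :=
  (c ^ f.primeFactors.card / (Nat.totient f : ℝ)) * ∑ ψ ∈ Prim f, ‖psiLog X f ψ‖

theorem Sf_nonneg (c X : ℝ) (hc : 0 ≤ c) (f : ℕ) : 0 ≤ Sf c X f :=
  mul_nonneg (by positivity) (sum_nonneg fun _ _ => norm_nonneg _)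

/-- small moduli -/
theorem small_part (c C X D : ℝ) (hc : 1 ≤ c) (hC : 0 < C) (hD : 0 ≤ D) (G : ℕ)
    (hω : ∀ f : ℕ, 1 ≤ f → c ^ f.primeFactors.card ≤ C * f)
    (hSW : ∀ f : ℕ, 2 ≤ f → f ≤ G → ∀ ψ ∈ Prim f, ‖psiLog X f ψ‖ ≤ D) :
    ∑ f ∈ Icc 2 G, Sf c X f ≤ C * (G : ℝ) ^ 2 * D := by
  have h1 : ∀ f ∈ Icc 2 G, Sf c X f ≤ C * G * D := by
    intro f hf
    rw [mem_Icc] at hf
    have hf0 : 0 < f := by omega
    have hφ : (0:ℝ) < Nat.totient f := by exact_mod_cast Nat.totient_pos.mpr hf0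
    have hfG : (f:ℝ) ≤ G := by exact_mod_cast hf.2
    unfold Sf
    calc (c ^ f.primeFactors.card / (Nat.totient f : ℝ)) * ∑ ψ ∈ Prim f, ‖psiLog X f ψ‖ ≤
        (c ^ f.primeFactors.card / (Nat.totient f : ℝ)) * ∑ ψ ∈ Prim f, D := by
          apply mul_le_mul_of_nonneg_left _ (by positivity)
          exact sum_le_sum fun ψ hψ => hSW f hf.1 hf.2 ψ hψ
      _ = (c ^ f.primeFactors.card / (Nat.totient f : ℝ)) * ((Prim f).card * D) := by
          rw [sum_const, nsmul_eq_mul]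
      _ ≤ (c ^ f.primeFactors.card / (Nat.totient f : ℝ)) * (Nat.totient f * D) := by
          apply mul_le_mul_of_nonneg_left _ (by positivity)
          exact mul_le_mul_of_nonneg_right (card_prim_le hf0) hD
      _ = c ^ f.primeFactors.card * D := by field_simp
      _ ≤ (C * f) * D := mul_le_mul_of_nonneg_right (hω f hf0) hD
      _ ≤ C * G * D := by gcongr
  calc ∑ f ∈ Icc 2 G, Sf c X f ≤ ∑ f ∈ Icc 2 G, C * G * D := sum_le_sum h1
    _ = ((Icc 2 G).card : ℝ) * (C * G * D) := by rw [sum_const, nsmul_eq_mul]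
    _ ≤ (G : ℝ) * (C * G * D) := by
        apply mul_le_mul_of_nonneg_right _ (by positivity)
        rw [Nat.card_Icc]
        have : G + 1 - 2 ≤ G := by omega
        exact_mod_cast this
    _ = _ := by ring

/-- Type I contribution of all moduli -/
theorem typeI_total (c C X η : ℝ) (hc : 1 ≤ c) (hC : 0 < C) (hη : 0 < η) (hX : 1 ≤ X)
    (U V F : ℕ)
    (hω : ∀ f : ℕ, 1 ≤ f → c ^ f.primeFactors.card ≤ C * (f:ℝ) ^ η) (S : Finset ℕ)
    (hS : S ⊆ Icc 2 F) :
    ∑ f ∈ S, (c ^ f.primeFactors.card / (Nat.totient f : ℝ)) *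
      ∑ _ψ ∈ Prim f, 8 * (U:ℝ) * V * f * Real.log X ^ 2 ≤
      8 * C * U * V * Real.log X ^ 2 * (F : ℝ) ^ (2 + η) := by
  have hL : 0 ≤ Real.log X := Real.log_nonneg hX
  rcases Nat.eq_zero_or_pos F with hF | hF
  · subst hF
    have : S = ∅ := by
      rw [← subset_empty]
      exact hS.trans (by simp)
    rw [this, sum_empty]
    positivity
  have hF0 : (0:ℝ) < F := by exact_mod_cast hF
  have h1 : ∀ f ∈ S, (c ^ f.primeFactors.card / (Nat.totient f : ℝ)) *
      ∑ _ψ ∈ Prim f, 8 * (U:ℝ) * V * f * Real.log X ^ 2 ≤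
      8 * C * U * V * Real.log X ^ 2 * ((F:ℝ) * (F:ℝ) ^ η) := by
    intro f hfS
    have hf := hS hfS
    rw [mem_Icc] at hf
    have hf0 : 0 < f := by omega
    have hφ : (0:ℝ) < Nat.totient f := by exact_mod_cast Nat.totient_pos.mpr hf0
    have hfF : (f:ℝ) ≤ F := by exact_mod_cast hf.2
    have hf0r : (0:ℝ) < f := by exact_mod_cast hf0
    calc _ = (c ^ f.primeFactors.card / (Nat.totient f : ℝ)) *
          ((Prim f).card * (8 * (U:ℝ) * V * f * Real.log X ^ 2)) := by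
          rw [sum_const, nsmul_eq_mul]
      _ ≤ (c ^ f.primeFactors.card / (Nat.totient f : ℝ)) *
          (Nat.totient f * (8 * (U:ℝ) * V * f * Real.log X ^ 2)) := by
          apply mul_le_mul_of_nonneg_left _ (by positivity)
          exact mul_le_mul_of_nonneg_right (card_prim_le hf0) (by positivity)
      _ = c ^ f.primeFactors.card * (8 * (U:ℝ) * V * f * Real.log X ^ 2) := by field_simp
      _ ≤ (C * (f:ℝ) ^ η) * (8 * (U:ℝ) * V * f * Real.log X ^ 2) :=
          mul_le_mul_of_nonneg_right (hω f hf0) (by positivity)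
      _ = 8 * C * U * V * Real.log X ^ 2 * ((f:ℝ) * (f:ℝ) ^ η) := by ring
      _ ≤ _ := by
          apply mul_le_mul_of_nonneg_left _ (by positivity)
          apply mul_le_mul hfF (Real.rpow_le_rpow hf0r.le hfF hη.le) (by positivity) (by positivity)
  calc _ ≤ ∑ f ∈ S, 8 * C * U * V * Real.log X ^ 2 * ((F:ℝ) * (F:ℝ) ^ η) := sum_le_sum h1
    _ = (S.card : ℝ) * (8 * C * U * V * Real.log X ^ 2 * ((F:ℝ) * (F:ℝ) ^ η)) := by
        rw [sum_const, nsmul_eq_mul]
    _ ≤ (F : ℝ) * (8 * C * U * V * Real.log X ^ 2 * ((F:ℝ) * (F:ℝ) ^ η)) := by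
        apply mul_le_mul_of_nonneg_right _ (by positivity)
        have h2 := card_le_card hS
        rw [Nat.card_Icc] at h2
        have : S.card ≤ F := by omega
        exact_mod_cast this
    _ = 8 * C * U * V * Real.log X ^ 2 * ((F:ℝ) ^ (2:ℝ) * (F:ℝ) ^ η) := by
        rw [Real.rpow_two]; ring
    _ = _ := by rw [← Real.rpow_add hF0]

/-- one dyadic block of Type II -/
theorem typeII_dyadic (c C X η : ℝ) (hc : 1 ≤ c) (hC : 0 < C) (hη : 0 < η) (hX : 1 ≤ X)
    (U V : ℕ) (hU : 1 ≤ U) (hV : 1 ≤ V)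
    (hω : ∀ f : ℕ, 1 ≤ f → c ^ f.primeFactors.card ≤ C * (f:ℝ) ^ η) (j : ℕ) (S : Finset ℕ)
    (hS : S ⊆ Icc (2 ^ j) (2 ^ (j + 1))) :
    ∑ f ∈ S, (c ^ f.primeFactors.card / (Nat.totient f : ℝ)) *
      ∑ ψ ∈ Prim f, ‖TL X f ψ (LamII U V)‖ ≤
      C * ((2:ℝ) ^ (j + 1)) ^ η * (12 * (1 + Real.log ((2:ℝ) ^ (j + 1))) *
        (Real.sqrt X / 2 ^ j + (Real.sqrt (X / U) + Real.sqrt (X / V)) + 2 ^ (j + 1)) *
        (Real.sqrt X * (1 + Real.log X) ^ 3) * Real.log X) := by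
  have h1 := typeII_block X hX U V (2 ^ j) (2 ^ (j + 1)) hU hV Nat.one_le_two_pow
    Nat.one_le_two_pow
  push_cast at h1
  refine le_trans ?_ (mul_le_mul_of_nonneg_left h1 (by positivity))
  rw [mul_sum]
  refine le_trans ?_ (sum_le_sum_of_subset_of_nonneg hS ?_)
  · apply sum_le_sum
    intro f hfS
    have hf := hS hfS
    rw [mem_Icc] at hf
    have hf0 : 0 < f := lt_of_lt_of_le (by positivity) hf.1
    have hf0r : (0:ℝ) < f := by exact_mod_cast hf0
    have hf2 : (f:ℝ) ≤ 2 ^ (j + 1) := by exact_mod_cast hf.2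
    have hφ : (0:ℝ) < Nat.totient f := by exact_mod_cast Nat.totient_pos.mpr hf0
    have h3 : 0 ≤ ∑ ψ ∈ Prim f, ‖TL X f ψ (LamII U V)‖ := sum_nonneg fun _ _ => norm_nonneg _
    have h4 : c ^ f.primeFactors.card ≤ C * ((2:ℝ) ^ (j + 1)) ^ η := by
      refine (hω f hf0).trans ?_
      apply mul_le_mul_of_nonneg_left _ hC.le
      exact Real.rpow_le_rpow hf0r.le hf2 hη.le
    calc (c ^ f.primeFactors.card / (Nat.totient f : ℝ)) *
        ∑ ψ ∈ Prim f, ‖TL X f ψ (LamII U V)‖ =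
        c ^ f.primeFactors.card * ((1 / (Nat.totient f : ℝ)) *
          ∑ ψ ∈ Prim f, ‖TL X f ψ (LamII U V)‖) := by ring
      _ ≤ _ := mul_le_mul_of_nonneg_right h4 (mul_nonneg (by positivity) h3)
  · intro f _ _
    apply mul_nonneg (by positivity)
    exact mul_nonneg (by positivity) (sum_nonneg fun _ _ => norm_nonneg _)

end Pool.Agent.H398R2.BV
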