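import Mathlib
import Pool.Agent.H68.L.R_seed8.H398R2.BV5

/-! Final step of the Bombieri-Vinogradov module. -/

open Finset Filter Topology

namespace Pool.Agent.H398R2.BV

open Pool.Agent.Helper112 Pool.Agent.Helper112.TI Pool.Agent.Helper112.TII
open Pool.Agent.H410R2

theorem key_ineq (X d : ℝ) (B' : ℕ) (hX : 4 ≤ X) (hL1 : 1 ≤ Real.log X) (hd : 0 < d)
    (hd4 : d ≤ 1 / 4) (U V : ℕ) (hU : X ^ (d / 4) ≤ U) (hV : X ^ (d / 4) ≤ V) (y : ℝ)
    (hy1 : Real.log X ^ (2 * B') ≤ y) (hy2 : y ≤ 2 * X ^ (1 / 2 - d)) :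
    y ^ (d / 8) * (Real.sqrt X / (y / 2) + (Real.sqrt (X / U) + Real.sqrt (X / V)) + y) *
      Real.sqrt X ≤ 2 * X / Real.log X ^ B' + 8 * X ^ (1 - d / 16) := by
  have hX0 : 0 < X := by linarith
  have hX1 : 1 ≤ X := by linarith
  set L := Real.log X with hL
  have hy0 : 1 ≤ y := (one_le_pow₀ hL1).trans hy1
  have hLB : 0 < L ^ B' := by positivity
  have hsX : Real.sqrt X = X ^ ((1:ℝ) / 2) := Real.sqrt_eq_rpow X
  have hyX : y ≤ 2 * X ^ ((1:ℝ) / 2) := by
    refine hy2.trans ?_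
    have : X ^ (1 / 2 - d) ≤ X ^ ((1:ℝ) / 2) := Real.rpow_le_rpow_of_exponent_le hX1 (by linarith)
    linarith
  -- (b)
  have hb1 : y ^ (d / 8) ≤ Real.sqrt y := by
    rw [Real.sqrt_eq_rpow]
    exact Real.rpow_le_rpow_of_exponent_le hy0 (by linarith)
  have hb2 : L ^ B' ≤ Real.sqrt y := by
    apply Real.le_sqrt_of_sq_le
    rw [← pow_mul, mul_comm]
    exact hy1
  have hb3 : y ^ (d / 8) * L ^ B' ≤ y := by
    calc y ^ (d / 8) * L ^ B' ≤ Real.sqrt y * Real.sqrt y :=
          mul_le_mul hb1 hb2 (by positivity) (Real.sqrt_nonneg _)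
      _ = y := Real.mul_self_sqrt (by linarith)
  have hb4 : y ^ (d / 8) * (Real.sqrt X / (y / 2)) * Real.sqrt X ≤ 2 * X / L ^ B' := by
    have e : y ^ (d / 8) * (Real.sqrt X / (y / 2)) * Real.sqrt X =
        2 * (Real.sqrt X * Real.sqrt X) * y ^ (d / 8) / y := by
      field_simp
    rw [e, Real.mul_self_sqrt hX0.le, div_le_div_iff₀ (by linarith) hLB]
    calc 2 * X * y ^ (d / 8) * L ^ B' = 2 * X * (y ^ (d / 8) * L ^ B') := by ring
      _ ≤ 2 * X * y := mul_le_mul_of_nonneg_left hb3 (by linarith)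
  -- (c)
  have hc1 : y ^ (d / 8) ≤ 2 * X ^ (d / 16) := by
    calc y ^ (d / 8) ≤ (2 * X ^ ((1:ℝ) / 2)) ^ (d / 8) :=
          Real.rpow_le_rpow (by linarith) hyX (by linarith)
      _ = 2 ^ (d / 8) * X ^ (d / 16) := by
          rw [Real.mul_rpow (by norm_num) (by positivity), ← Real.rpow_mul hX0.le]
          congr 2
          ring
      _ ≤ 2 * X ^ (d / 16) := by
          apply mul_le_mul_of_nonneg_right _ (by positivity)
          calc (2:ℝ) ^ (d / 8) ≤ 2 ^ (1:ℝ) :=
                Real.rpow_le_rpow_of_exponent_le (by norm_num) (by linarith)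
            _ = 2 := by norm_num
  -- (d)
  have hsq : ∀ W : ℕ, X ^ (d / 4) ≤ W → Real.sqrt (X / W) ≤ X ^ (1 / 2 - d / 8) := by
    intro W hW
    have hp : 0 < X ^ (d / 4) := by positivity
    have h1 : X / W ≤ X ^ (1 - d / 4) := by
      rw [Real.rpow_sub hX0, Real.rpow_one]
      exact div_le_div_of_nonneg_left hX0.le hp hW
    calc Real.sqrt (X / W) ≤ Real.sqrt (X ^ (1 - d / 4)) := Real.sqrt_le_sqrt h1
      _ = X ^ (1 / 2 - d / 8) := by
          rw [Real.sqrt_eq_rpow, ← Real.rpow_mul hX0.le]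
          congr 1
          ring
  have hd1 := hsq U hU
  have hd2 := hsq V hV
  have hy3 : y ≤ 2 * X ^ (1 / 2 - d / 8) := by
    refine hy2.trans ?_
    have : X ^ (1 / 2 - d) ≤ X ^ (1 / 2 - d / 8) :=
      Real.rpow_le_rpow_of_exponent_le hX1 (by linarith)
    linarith
  have hsum : (Real.sqrt (X / U) + Real.sqrt (X / V)) + y ≤ 4 * X ^ (1 / 2 - d / 8) := by
    linarith
  have hc2 : y ^ (d / 8) * ((Real.sqrt (X / U) + Real.sqrt (X / V)) + y) * Real.sqrt X ≤
      8 * X ^ (1 - d / 16) := by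
    calc y ^ (d / 8) * ((Real.sqrt (X / U) + Real.sqrt (X / V)) + y) * Real.sqrt X ≤
        (2 * X ^ (d / 16)) * (4 * X ^ (1 / 2 - d / 8)) * Real.sqrt X := by gcongr
      _ = 8 * (X ^ (d / 16) * X ^ (1 / 2 - d / 8) * X ^ ((1:ℝ) / 2)) := by rw [hsX]; ring
      _ = 8 * X ^ (1 - d / 16) := by
          rw [← Real.rpow_add hX0, ← Real.rpow_add hX0]
          congr 2
          ring
  calc y ^ (d / 8) * (Real.sqrt X / (y / 2) + (Real.sqrt (X / U) + Real.sqrt (X / V)) + y) *
      Real.sqrt X = y ^ (d / 8) * (Real.sqrt X / (y / 2)) * Real.sqrt X +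
        y ^ (d / 8) * ((Real.sqrt (X / U) + Real.sqrt (X / V)) + y) * Real.sqrt X := by ring
    _ ≤ _ := add_le_add hb4 hc2

theorem typeII_total (c C X d : ℝ) (B' : ℕ) (hc : 1 ≤ c) (hC : 0 < C) (hX : 4 ≤ X)
    (hL1 : 1 ≤ Real.log X) (hd : 0 < d) (hd4 : d ≤ 1 / 4) (U V : ℕ)
    (hU : X ^ (d / 4) ≤ U) (hV : X ^ (d / 4) ≤ V)
    (hω : ∀ f : ℕ, 1 ≤ f → c ^ f.primeFactors.card ≤ C * (f:ℝ) ^ (d / 8)) (S : Finset ℕ)
    (hS : ∀ f ∈ S, 2 ≤ f ∧ Real.log X ^ (2 * B') ≤ f ∧ (f:ℝ) ≤ X ^ (1 / 2 - d)) :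
    ∑ f ∈ S, (c ^ f.primeFactors.card / (Nat.totient f : ℝ)) *
      ∑ ψ ∈ Prim f, ‖TL X f ψ (LamII U V)‖ ≤
      12 * C * (1 + Real.log X) ^ 6 * (2 * X / Real.log X ^ B' + 8 * X ^ (1 - d / 16)) := by
  have hX0 : 0 < X := by linarith
  have hX1 : 1 ≤ X := by linarith
  set L := Real.log X with hL
  have hp : 0 < X ^ (d / 4) := by positivity
  have hU1 : 1 ≤ U := by
    by_contra h
    have : U = 0 := by omega
    subst this
    simp at hU
    linarith
  have hV1 : 1 ≤ V := by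
    by_contra h
    have : V = 0 := by omega
    subst this
    simp at hV
    linarith
  have hE0 : 0 ≤ 2 * X / L ^ B' + 8 * X ^ (1 - d / 16) := by positivity
  have hmaps : ∀ f ∈ S, Nat.log 2 f ∈ range (⌊L⌋₊ + 1) := by
    intro f hf
    obtain ⟨h2, _, h3⟩ := hS f hf
    rw [mem_range, Nat.lt_succ_iff]
    apply Nat.le_floor
    have h4 : ((2:ℝ) ^ (Nat.log 2 f)) ≤ X ^ ((1:ℝ) / 2) := by
      calc ((2:ℝ) ^ (Nat.log 2 f)) ≤ f := by exact_mod_cast Nat.pow_log_le_self 2 (by omega)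
        _ ≤ X ^ (1 / 2 - d) := h3
        _ ≤ _ := Real.rpow_le_rpow_of_exponent_le hX1 (by linarith)
    have h5 := Real.log_le_log (by positivity) h4
    rw [Real.log_pow, Real.log_rpow hX0] at h5
    have h6 : (0.5:ℝ) < Real.log 2 := by
      have := Real.log_two_gt_d9
      linarith
    have h7 : (0:ℝ) ≤ (Nat.log 2 f : ℝ) := by positivity
    nlinarith
  rw [← sum_fiberwise_of_maps_to hmaps]
  have hblock : ∀ j ∈ range (⌊L⌋₊ + 1), ∑ f ∈ S.filter (fun f => Nat.log 2 f = j),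
      (c ^ f.primeFactors.card / (Nat.totient f : ℝ)) *
      ∑ ψ ∈ Prim f, ‖TL X f ψ (LamII U V)‖ ≤
      12 * C * (1 + L) ^ 5 * (2 * X / L ^ B' + 8 * X ^ (1 - d / 16)) := by
    intro j _
    rcases (S.filter (fun f => Nat.log 2 f = j)).eq_empty_or_nonempty with hemp | ⟨f0, hf0⟩
    · rw [hemp, sum_empty]
      positivity
    have hsub : S.filter (fun f => Nat.log 2 f = j) ⊆ Icc (2 ^ j) (2 ^ (j + 1)) := by
      intro f hf
      rw [mem_filter] at hf
      obtain ⟨h1, h2⟩ := hf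
      obtain ⟨h3, _, _⟩ := hS f h1
      rw [mem_Icc, ← h2]
      exact ⟨Nat.pow_log_le_self 2 (by omega), (Nat.lt_pow_succ_log_self (by norm_num) f).le⟩
    refine (typeII_dyadic c C X (d / 8) hc hC (by positivity) hX1 U V hU1 hV1 hω j _ hsub).trans ?_
    rw [mem_filter] at hf0
    obtain ⟨h1, h2⟩ := hf0
    obtain ⟨h3, h4, h5⟩ := hS f0 h1
    set y : ℝ := 2 ^ (j + 1) with hy
    have hy2j : (2:ℝ) ^ j = y / 2 := by rw [hy, pow_succ]; ring
    have hj1 : (2:ℝ) ^ j ≤ f0 := by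
      rw [← h2]; exact_mod_cast Nat.pow_log_le_self 2 (by omega)
    have hj2 : (f0:ℝ) ≤ y := by
      rw [hy, ← h2]; exact_mod_cast (Nat.lt_pow_succ_log_self (by norm_num) f0).le
    have hyl : L ^ (2 * B') ≤ y := h4.trans hj2
    have hyu : y ≤ 2 * X ^ (1 / 2 - d) := by
      have : y / 2 ≤ X ^ (1 / 2 - d) := by rw [← hy2j]; exact hj1.trans h5
      linarith
    have hkey := key_ineq X d B' hX hL1 hd hd4 U V hU hV y hyl hyu
    rw [← hL] at hkey
    have hy0 : 1 ≤ y := (one_le_pow₀ hL1).trans hyl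
    have hyX : y ≤ X := by
      calc y ≤ 2 * X ^ (1 / 2 - d) := hyu
        _ ≤ 2 * X ^ ((1:ℝ) / 2) := by
            have : X ^ (1 / 2 - d) ≤ X ^ ((1:ℝ) / 2) :=
              Real.rpow_le_rpow_of_exponent_le hX1 (by linarith)
            linarith
        _ ≤ X ^ ((1:ℝ) / 2) * X ^ ((1:ℝ) / 2) := by
            apply mul_le_mul_of_nonneg_right _ (by positivity)
            rw [← Real.sqrt_eq_rpow]
            apply Real.le_sqrt_of_sq_le
            linarith
        _ = X := by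
            rw [← Real.rpow_add hX0]; norm_num
    have hlogy : Real.log y ≤ L := Real.log_le_log (by linarith) hyX
    have hlogy0 : 0 ≤ Real.log y := Real.log_nonneg hy0
    rw [hy2j]
    calc C * y ^ (d / 8) * (12 * (1 + Real.log y) *
        (Real.sqrt X / (y / 2) + (Real.sqrt (X / U) + Real.sqrt (X / V)) + y) *
        (Real.sqrt X * (1 + L) ^ 3) * L) =
        12 * C * ((1 + Real.log y) * (1 + L) ^ 3 * L) * (y ^ (d / 8) *
          (Real.sqrt X / (y / 2) + (Real.sqrt (X / U) + Real.sqrt (X / V)) + y) *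
          Real.sqrt X) := by ring
      _ ≤ 12 * C * ((1 + L) * (1 + L) ^ 3 * (1 + L)) *
          (2 * X / L ^ B' + 8 * X ^ (1 - d / 16)) := by
          apply mul_le_mul _ hkey (by positivity) (by positivity)
          gcongr
          linarith
      _ = _ := by ring
  refine (sum_le_sum hblock).trans ?_
  rw [sum_const, nsmul_eq_mul, card_range]
  have h8 : ((⌊L⌋₊ + 1 : ℕ) : ℝ) ≤ 1 + L := by
    push_cast
    have := Nat.floor_le (show 0 ≤ L by linarith)
    linarith
  calc ((⌊L⌋₊ + 1 : ℕ) : ℝ) * (12 * C * (1 + L) ^ 5 *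
      (2 * X / L ^ B' + 8 * X ^ (1 - d / 16))) ≤
      (1 + L) * (12 * C * (1 + L) ^ 5 * (2 * X / L ^ B' + 8 * X ^ (1 - d / 16))) :=
        mul_le_mul_of_nonneg_right h8 (by positivity)
    _ = _ := by ring

/-- log powers are small -/
theorem ev_log (K : ℝ) (k : ℕ) (s : ℝ) (hs : 0 < s) :
    ∀ᶠ X : ℝ in atTop, K * Real.log X ^ k ≤ X ^ s := by
  have h1 := isLittleO_log_rpow_rpow_atTop (k : ℝ) hs
  have h2 : (0:ℝ) < 1 / (|K| + 1) := by positivity
  have h3 := h1.bound h2
  filter_upwards [h3, eventually_ge_atTop (1:ℝ)] with X hX hX1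
  have hL : 0 ≤ Real.log X := Real.log_nonneg hX1
  have hXs : 0 ≤ X ^ s := by positivity
  have hLk : 0 ≤ Real.log X ^ k := by positivity
  rw [Real.rpow_natCast, Real.norm_eq_abs, Real.norm_eq_abs, abs_of_nonneg hLk,
    abs_of_nonneg hXs] at hX
  have h4 : K * Real.log X ^ k ≤ (|K| + 1) * Real.log X ^ k := by
    apply mul_le_mul_of_nonneg_right _ (by positivity)
    have := le_abs_self K
    linarith
  refine h4.trans ?_
  calc (|K| + 1) * Real.log X ^ k ≤ (|K| + 1) * (1 / (|K| + 1) * X ^ s) :=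
        mul_le_mul_of_nonneg_left hX (by positivity)
    _ = X ^ s := by field_simp

theorem main (h : SiegelWalfisz) (c : ℝ) (hc : 1 ≤ c) (δ : ℝ) (hδ : 0 < δ) (A : ℕ) :
    ∃ X₀ : ℝ, ∀ X : ℝ, X₀ ≤ X →
      ∑ f ∈ Icc 2 ⌊X ^ (1 / 2 - δ)⌋₊, Sf c X f ≤ X / (Real.log X) ^ A := by
  set d := min δ (1 / 4) with hd
  have hd0 : 0 < d := lt_min hδ (by norm_num)
  have hd4 : d ≤ 1 / 4 := min_le_right _ _
  have hdδ : d ≤ δ := min_le_left _ _
  obtain ⟨C, hC, hω⟩ := pow_omega_le c hc (d / 8) (by positivity)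
  set B' := A + 7 with hB'
  set B := 2 * B' with hB
  set A' := A + 2 * B + 1 with hA'
  obtain ⟨x₀, hx₀⟩ := h A' B
  have hlog : Tendsto Real.log atTop atTop := Real.tendsto_log_atTop
  have ev : ∀ᶠ X : ℝ in atTop, ∑ f ∈ Icc 2 ⌊X ^ (1 / 2 - δ)⌋₊, Sf c X f ≤
      X / (Real.log X) ^ A := by
    filter_upwards [eventually_ge_atTop x₀, eventually_ge_atTop (4:ℝ),
      hlog.eventually_ge_atTop 1, hlog.eventually_ge_atTop (4 * C),
      hlog.eventually_ge_atTop (6144 * C), ev_log (24576 * C) (6 + A) (d / 16) (by positivity),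
      ev_log (128 * C) (2 + A) d hd0] with X h1 h2 h3 h4 h5 h6 h7
    have hX0 : 0 < X := by linarith
    have hX1 : 1 ≤ X := by linarith
    set L := Real.log X with hL
    have hL0 : 0 < L := by linarith
    have hXA : 0 < X / L ^ A := by positivity
    have hcc : (0:ℝ) ≤ c := by linarith
    -- enlarge the range
    set F := ⌊X ^ (1 / 2 - d)⌋₊ with hF
    have hFle : (F : ℝ) ≤ X ^ (1 / 2 - d) := Nat.floor_le (by positivity)
    have hrange : ∑ f ∈ Icc 2 ⌊X ^ (1 / 2 - δ)⌋₊, Sf c X f ≤ ∑ f ∈ Icc 2 F, Sf c X f := by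
      apply sum_le_sum_of_subset_of_nonneg
      · apply Icc_subset_Icc_right
        apply Nat.floor_mono
        exact Real.rpow_le_rpow_of_exponent_le hX1 (by linarith)
      · intro f _ _
        exact Sf_nonneg c X hcc f
    refine hrange.trans ?_
    set G := ⌊L ^ B⌋₊ with hG
    have hGle : (G : ℝ) ≤ L ^ B := Nat.floor_le (by positivity)
    set S := (Icc 2 F).filter (fun f => G < f) with hS
    have hsplit : ∑ f ∈ Icc 2 F, Sf c X f ≤ ∑ f ∈ Icc 2 G, Sf c X f + ∑ f ∈ S, Sf c X f := by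
      rw [← sum_filter_add_sum_filter_not (Icc 2 F) (fun f => f ≤ G)]
      apply add_le_add
      · apply sum_le_sum_of_subset_of_nonneg
        · intro f hf
          rw [mem_filter, mem_Icc] at hf
          rw [mem_Icc]
          exact ⟨hf.1.1, hf.2⟩
        · intro f _ _
          exact Sf_nonneg c X hcc f
      · apply le_of_eq
        apply sum_congr _ (fun _ _ => rfl)
        rw [hS]
        apply filter_congr
        intro f _
        exact not_le
    refine hsplit.trans ?_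
    -- small part
    have hsmall : ∑ f ∈ Icc 2 G, Sf c X f ≤ (1 / 4) * (X / L ^ A) := by
      have h8 : ∑ f ∈ Icc 2 G, Sf c X f ≤ C * (G : ℝ) ^ 2 * (X / L ^ A') := by
        apply small_part c C X (X / L ^ A') hc hC (by positivity) G
        · intro f hf
          refine (hω f hf).trans ?_
          apply mul_le_mul_of_nonneg_left _ hC.le
          have hf1 : (1:ℝ) ≤ f := by exact_mod_cast hf
          calc (f:ℝ) ^ (d / 8) ≤ (f:ℝ) ^ (1:ℝ) :=
                Real.rpow_le_rpow_of_exponent_le hf1 (by linarith)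
            _ = f := Real.rpow_one _
        · intro f hf2 hfG ψ hψ
          apply hx₀ X h1 f (by omega)
          · calc (f:ℝ) ≤ G := by exact_mod_cast hfG
              _ ≤ L ^ B := hGle
          · classical
            unfold Prim at hψ
            rw [mem_filter] at hψ
            exact hψ.2
      refine h8.trans ?_
      have h9 : (G:ℝ) ^ 2 ≤ L ^ (2 * B) := by
        calc (G:ℝ) ^ 2 ≤ (L ^ B) ^ 2 := pow_le_pow_left₀ (by positivity) hGle 2
          _ = L ^ (2 * B) := by rw [← pow_mul, mul_comm]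
      calc C * (G:ℝ) ^ 2 * (X / L ^ A') ≤ C * L ^ (2 * B) * (X / L ^ A') := by gcongr
        _ = (C / L) * (X / L ^ A) := by
            rw [hA', pow_add, pow_add, pow_one]
            field_simp
        _ ≤ (1 / 4) * (X / L ^ A) := by
            apply mul_le_mul_of_nonneg_right _ hXA.le
            rw [div_le_iff₀ hL0]
            linarith
    -- large part
    set W := ⌈X ^ (d / 4)⌉₊ with hW
    have hXd : 1 ≤ X ^ (d / 4) := Real.one_le_rpow hX1 (by positivity)
    have hW1 : X ^ (d / 4) ≤ W := Nat.le_ceil _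
    have hW2 : (W : ℝ) ≤ 2 * X ^ (d / 4) := by
      have := Nat.ceil_lt_add_one (show 0 ≤ X ^ (d / 4) by positivity)
      linarith
    have hW3 : 1 ≤ W := by
      have : (1:ℝ) ≤ W := hXd.trans hW1
      exact_mod_cast this
    have hSsub : S ⊆ Icc 2 F := filter_subset _ _
    have hlarge : ∑ f ∈ S, Sf c X f ≤
        (∑ f ∈ S, (c ^ f.primeFactors.card / (Nat.totient f : ℝ)) *
          ∑ _ψ ∈ Prim f, 8 * (W:ℝ) * W * f * L ^ 2) +
        ∑ f ∈ S, (c ^ f.primeFactors.card / (Nat.totient f : ℝ)) *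
          ∑ ψ ∈ Prim f, ‖TL X f ψ (LamII W W)‖ := by
      rw [← sum_add_distrib]
      apply sum_le_sum
      intro f hf
      have hf2 := hSsub hf
      rw [mem_Icc] at hf2
      rw [← mul_add, ← sum_add_distrib]
      unfold Sf
      apply mul_le_mul_of_nonneg_left _ (by positivity)
      apply sum_le_sum
      intro ψ hψ
      exact norm_psiLog_le X hX1 W W f hW3 hW3 hf2.1 ψ (prim_ne_one hf2.1 hψ)
    have hI := typeI_total c C X (d / 8) hc hC (by positivity) hX1 W W F hω S hSsub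
    rw [← hL] at hI
    have hII := typeII_total c C X d B' hc hC h2 h3 hd0 hd4 W W hW1 hW1 hω S (by
      intro f hf
      rw [hS, mem_filter, mem_Icc] at hf
      refine ⟨hf.1.1, ?_, ?_⟩
      · rw [← hL, ← hB]
        have : L ^ B < f := Nat.lt_of_floor_lt hf.2
        exact this.le
      · calc (f:ℝ) ≤ F := by exact_mod_cast hf.1.2
          _ ≤ _ := hFle)
    rw [← hL] at hII
    -- type I total small
    have hI2 : 8 * C * W * W * L ^ 2 * (F : ℝ) ^ (2 + d / 8) ≤ (1 / 4) * (X / L ^ A) := by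
      have hF2 : (F : ℝ) ^ (2 + d / 8) ≤ X ^ ((1 / 2 - d) * (2 + d / 8)) := by
        rw [Real.rpow_mul hX0.le]
        exact Real.rpow_le_rpow (by positivity) hFle (by positivity)
      have hWW : (W:ℝ) * W ≤ 4 * X ^ (d / 2) := by
        calc (W:ℝ) * W ≤ (2 * X ^ (d / 4)) * (2 * X ^ (d / 4)) := by gcongr
          _ = 4 * (X ^ (d / 4) * X ^ (d / 4)) := by ring
          _ = 4 * X ^ (d / 2) := by
              rw [← Real.rpow_add hX0]
              congr 2
              ring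
      have hexp : X ^ (d / 2) * X ^ ((1 / 2 - d) * (2 + d / 8)) ≤ X ^ (1 - d) := by
        rw [← Real.rpow_add hX0]
        apply Real.rpow_le_rpow_of_exponent_le hX1
        nlinarith
      have hXd' : X ^ (1 - d) = X / X ^ d := by rw [Real.rpow_sub hX0, Real.rpow_one]
      have hXd0 : 0 < X ^ d := by positivity
      calc 8 * C * W * W * L ^ 2 * (F : ℝ) ^ (2 + d / 8) =
          8 * C * L ^ 2 * ((W * W) * (F : ℝ) ^ (2 + d / 8)) := by ring
        _ ≤ 8 * C * L ^ 2 * ((4 * X ^ (d / 2)) * X ^ ((1 / 2 - d) * (2 + d / 8))) := by gcongr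
        _ = 32 * C * L ^ 2 * (X ^ (d / 2) * X ^ ((1 / 2 - d) * (2 + d / 8))) := by ring
        _ ≤ 32 * C * L ^ 2 * (X / X ^ d) := by
            rw [← hXd']
            apply mul_le_mul_of_nonneg_left hexp (by positivity)
        _ = (1 / 4) * ((128 * C * L ^ (2 + A)) / X ^ d) * (X / L ^ A) := by
            rw [pow_add]
            field_simp
            ring
        _ ≤ (1 / 4) * 1 * (X / L ^ A) := by
            gcongr
            rw [div_le_one hXd0]
            exact h7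
        _ = _ := by ring
    have hII2 : 12 * C * (1 + L) ^ 6 * (2 * X / L ^ B' + 8 * X ^ (1 - d / 16)) ≤
        (1 / 2) * (X / L ^ A) := by
      have hL6 : (1 + L) ^ 6 ≤ 64 * L ^ 6 := by
        calc (1 + L) ^ 6 ≤ (2 * L) ^ 6 := pow_le_pow_left₀ (by linarith) (by linarith) 6
          _ = 64 * L ^ 6 := by ring
      have hXd' : X ^ (1 - d / 16) = X / X ^ (d / 16) := by rw [Real.rpow_sub hX0, Real.rpow_one]
      have hXd0 : 0 < X ^ (d / 16) := by positivity
      have e1 : 12 * C * (64 * L ^ 6) * (2 * X / L ^ B') ≤ (1 / 4) * (X / L ^ A) := by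
        calc 12 * C * (64 * L ^ 6) * (2 * X / L ^ B') = (1536 * C / L) * (X / L ^ A) := by
              rw [hB', pow_add]
              field_simp
              ring
          _ ≤ (1 / 4) * (X / L ^ A) := by
              apply mul_le_mul_of_nonneg_right _ hXA.le
              rw [div_le_iff₀ hL0]
              linarith
      have e2 : 12 * C * (64 * L ^ 6) * (8 * X ^ (1 - d / 16)) ≤ (1 / 4) * (X / L ^ A) := by
        calc 12 * C * (64 * L ^ 6) * (8 * X ^ (1 - d / 16)) =
            (1 / 4) * ((24576 * C * L ^ (6 + A)) / X ^ (d / 16)) * (X / L ^ A) := by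
              rw [hXd', pow_add]
              field_simp
              ring
          _ ≤ (1 / 4) * 1 * (X / L ^ A) := by
              gcongr
              rw [div_le_one hXd0]
              exact h6
          _ = _ := by ring
      calc 12 * C * (1 + L) ^ 6 * (2 * X / L ^ B' + 8 * X ^ (1 - d / 16)) ≤
          12 * C * (64 * L ^ 6) * (2 * X / L ^ B' + 8 * X ^ (1 - d / 16)) := by gcongr
        _ = 12 * C * (64 * L ^ 6) * (2 * X / L ^ B') +
            12 * C * (64 * L ^ 6) * (8 * X ^ (1 - d / 16)) := by ring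
        _ ≤ _ := by linarith
    linarith
  rw [eventually_atTop] at ev
  exact ev

end Pool.Agent.H398R2.BV

namespace Pool.Agent.H398R2

open Finset Pool.Agent.H410R2

/-- module B of TEAM-MT -/
theorem bvTotal (h : SiegelWalfisz) : BVTotal := by
  intro c hc δ hδ A
  exact BV.main h c hc δ hδ A

end Pool.Agent.H398R2
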